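import Pool.Agent.Lib.MP_b00168_gt.Assemble

set_option autoImplicit false

/-!
# MP_b00168_gt, question Q1: every URC-manifold has a uniform integer

Singular homology with integer coefficients is written out in terms of singular chains.  The
manifold `M` of dimension `n + 1` is a compact connected Hausdorff space with an atlas modelled on
`EuclideanSpace ℝ (Fin (n + 1))`; its orientation is a fundamental cycle `μ`.
-/

namespace Pool.Agent.Results.MP_b00168_gt.UniformInteger

open MPb00168

universe u

/-- Every URC-manifold `M` (closed, connected, oriented, of dimension `n + 1 ≥ 1`) has a uniform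
integer: there is `q ≥ 1` such that for every space `X` and every integral homology class `z` of
dimension `n + 1` of `X` the class `q z` is realised by the image of the fundamental class of a
finite-sheeted covering of `M`. -/
theorem result (n : ℕ) (M : Type) [TopologicalSpace M] [T2Space M] [CompactSpace M]
    [ConnectedSpace M] [ChartedSpace (EuclideanSpace ℝ (Fin (n + 1))) M]
    (μ : Chain M (n + 1)) (hμ : IsFund μ) (hURC : IsURC μ) :
    ∃ q : ℕ, 0 < q ∧ IsUniform.{u} μ q := by
  have : LocallyConnectedSpace M :=
    ChartedSpace.locallyConnectedSpace (EuclideanSpace ℝ (Fin (n + 1))) M
  exact specResult_all n M μ hμ hURC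

end Pool.Agent.Results.MP_b00168_gt.UniformInteger
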